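import Pool.Agent.K7.H28.SP.P3
import Pool.Agent.K7.H28.ST.T8

/-!
# Paths of symplectic forms which are continuous in time can be made smooth in time
-/

set_option autoImplicit false

open Set Filter Topology MeasureTheory
open scoped Manifold ContDiff

noncomputable section

namespace Pool.Agent.K7.H28.SB

open Pool.Agent.Y501.SY Pool.Agent.Y455.SY Pool.Agent.K7.H28.SP Pool.Agent.K7.H28.ST

/-- partitions of unity in time -/
theorem time_partition (r : ℝ → ℝ) (hr : ∀ t, 0 < r t) :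
    ∃ (n : ℕ) (c : Fin n → ℝ) (f : Fin n → ℝ → ℝ), (∀ i, c i ∈ Icc (0 : ℝ) 1) ∧
      (∀ i, ContDiff ℝ ∞ (f i)) ∧ (∀ i t, 0 ≤ f i t) ∧
      (∀ t ∈ Icc (0 : ℝ) 1, ∑ i, f i t = 1) ∧ (∀ i t, f i t ≠ 0 → |t - c i| < r (c i)) ∧
      (∀ i, c i ≠ 0 → f i 0 = 0) ∧ ∀ i, c i ≠ 1 → f i 1 = 0 := by
  classical
  have hr' : ∀ t : ℝ, ∃ ε : ℝ, 0 < ε ∧ ε ≤ r t ∧ (t ≠ 0 → (0 : ℝ) ∉ Metric.ball t ε) ∧
      (t ≠ 1 → (1 : ℝ) ∉ Metric.ball t ε) := by
    intro t
    have g2 : ∀ᶠ s in 𝓝 t, t ≠ 0 → s ≠ 0 := by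
      by_cases ht : t = 0
      · exact Eventually.of_forall fun s hs => absurd ht hs
      · filter_upwards [isOpen_ne.mem_nhds ht] with s hs _
        exact hs
    have g3 : ∀ᶠ s in 𝓝 t, t ≠ 1 → s ≠ 1 := by
      by_cases ht : t = 1
      · exact Eventually.of_forall fun s hs => absurd ht hs
      · filter_upwards [isOpen_ne.mem_nhds ht] with s hs _
        exact hs
    obtain ⟨ε, hε, g4⟩ := Metric.eventually_nhds_iff_ball.1 (g2.and g3)
    refine ⟨min ε (r t), lt_min hε (hr t), min_le_right _ _, fun ht hs => ?_, fun ht hs => ?_⟩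
    · exact (g4 0 (Metric.ball_subset_ball (min_le_left _ _) hs)).1 ht rfl
    · exact (g4 1 (Metric.ball_subset_ball (min_le_left _ _) hs)).2 ht rfl
  choose ε hε hεr hε2 hε3 using hr'
  obtain ⟨T, hTs, hT⟩ := (isCompact_Icc (a := (0 : ℝ)) (b := 1)).elim_nhds_subcover
    (fun t => Metric.ball t (ε t)) (fun t _ => Metric.ball_mem_nhds t (hε t))
  obtain ⟨f, hf⟩ := SmoothPartitionOfUnity.exists_isSubordinate 𝓘(ℝ, ℝ)
    (isClosed_Icc (a := (0 : ℝ)) (b := 1)) (fun i : T => Metric.ball (i : ℝ) (ε i))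
    (fun i => Metric.isOpen_ball) (by
      intro t ht
      obtain ⟨i, hi, hti⟩ := mem_iUnion₂.1 (hT ht)
      exact mem_iUnion.2 ⟨⟨i, hi⟩, hti⟩)
  have hsum : ∀ t ∈ Icc (0 : ℝ) 1, ∑ i, f i t = 1 := by
    intro t ht
    have g1 := f.sum_eq_one ht
    rwa [finsum_eq_sum_of_fintype] at g1
  have hsupp : ∀ (i : T) t, f i t ≠ 0 → t ∈ Metric.ball (i : ℝ) (ε i) := fun i t ht =>
    hf i (subset_tsupport _ ht)
  let e : Fin (Fintype.card T) ≃ T := (Fintype.equivFin T).symm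
  have hre : ∀ {M : Type} [AddCommMonoid M] (g : T → M), ∑ i, g (e i) = ∑ j, g j :=
    fun g => Equiv.sum_comp e g
  refine ⟨Fintype.card T, fun i => (e i : ℝ), fun i => f (e i), fun i => hTs _ (e i).2,
    fun i => (f (e i)).contMDiff.contDiff, fun i t => f.nonneg _ t, fun t ht => ?_,
    fun i t hi => ?_, fun i hi => ?_, fun i hi => ?_⟩
  · rw [hre fun j : T => f j t]
    exact hsum t ht
  · have g1 := hsupp _ t hi
    rw [Metric.mem_ball, Real.dist_eq] at g1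
    exact lt_of_lt_of_le g1 (hεr _)
  · by_contra hne
    exact hε2 _ hi (hsupp _ 0 hne)
  · by_contra hne
    exact hε3 _ hi (hsupp _ 1 hne)

theorem partition_end {M : Type} [AddCommMonoid M] [Module ℝ M] {n : ℕ} {c : Fin n → ℝ}
    {f : Fin n → ℝ → ℝ} {u : ℝ} (hs : ∑ i, f i u = 1) (hz : ∀ i, c i ≠ u → f i u = 0)
    (g : ℝ → M) : ∑ i, f i u • g (c i) = g u := by
  have h1 : ∑ i, f i u • g (c i) = ∑ i, f i u • g u := by
    refine Finset.sum_congr rfl fun i _ => ?_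
    by_cases hi : c i = u
    · rw [hi]
    · rw [hz i hi, zero_smul, zero_smul]
  rw [h1, ← Finset.sum_smul, hs, one_smul]

section

variable {d : ℕ} {X : Type} [TopologicalSpace X] [ChartedSpace (E d) X]

/-- paths of forms which are continuous in time and space -/
def CPath (τ : ℝ → Form d X 2) : Prop :=
  ∀ (x₀ : X) (u v : E d), ContinuousOn
    (fun z : ℝ × E d => pb (chartAt (E d) x₀).symm (τ z.1) z.2 ![u, v])
    (univ ×ˢ (chartAt (E d) x₀).target)

/-- nondegenerate forms -/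
def NdF (σ : Form d X 2) : Prop :=
  ∀ (x : X) (u : TangentSpace (𝓡 d) x), (∀ v, σ x ![u, v] = 0) → u = 0

variable [IsManifold (𝓡 d) ∞ X]

omit [TopologicalSpace X] [ChartedSpace (E d) X] [IsManifold (𝓡 d) ∞ X] in
theorem nd_conj (η : (E d) [⋀^Fin 2]→L[ℝ] ℝ) {L M : E d →L[ℝ] E d} (hLM : ∀ v, L (M v) = v)
    (hML : ∀ v, M (L v) = v) : Nd η ↔ Nd (η.compContinuousLinearMap L) := by
  have hval : ∀ u v : E d, η.compContinuousLinearMap L ![u, v] = η ![L u, L v] := by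
    intro u v
    change η (fun i => L ((![u, v] : Fin 2 → E d) i)) = _
    congr 1
    funext i
    fin_cases i <;> rfl
  constructor
  · intro h z hz
    have h1 : L z = 0 := by
      refine h (L z) fun v => ?_
      have h2 := hz (M v)
      rw [hval, hLM] at h2
      exact h2
    rw [← hML z, h1, map_zero]
  · intro h u hu
    have h1 : M u = 0 := by
      refine h (M u) fun v => ?_
      rw [hval, hLM]
      exact hu _
    rw [← hLM u, h1, map_zero]

theorem nd_chart (σ : Form d X 2) (x₀ : X) {p : E d} (hp : p ∈ (chartAt (E d) x₀).target) :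
    (∀ u : TangentSpace (𝓡 d) ((chartAt (E d) x₀).symm p),
      (∀ v, σ ((chartAt (E d) x₀).symm p) ![u, v] = 0) → u = 0) ↔
      Nd (V := E d) (pb (chartAt (E d) x₀).symm σ p) :=
  nd_conj (σ ((chartAt (E d) x₀).symm p)) (L := A x₀ p) (M := B x₀ p) (AB x₀ hp) (BA x₀ hp)

theorem nd_at (σ : Form d X 2) (x₀ : X) {y : X} (hy : y ∈ (chartAt (E d) x₀).source) :
    (∀ u : TangentSpace (𝓡 d) y, (∀ v, σ y ![u, v] = 0) → u = 0) ↔
      Nd (V := E d) (pb (chartAt (E d) x₀).symm σ (chartAt (E d) x₀ y)) := by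
  have h1 := nd_chart σ x₀ ((chartAt (E d) x₀).map_source hy)
  have key : ∀ y' : X, y' = (chartAt (E d) x₀).symm (chartAt (E d) x₀ y) →
      ((∀ u : TangentSpace (𝓡 d) y', (∀ v, σ y' ![u, v] = 0) → u = 0) ↔
        Nd (V := E d) (pb (chartAt (E d) x₀).symm σ (chartAt (E d) x₀ y))) := by
    rintro y' rfl
    exact h1
  exact key y ((chartAt (E d) x₀).left_inv hy).symm

theorem ball_comb {M : Type} [NormedAddCommGroup M] [NormedSpace ℝ M] {n : ℕ} (a : Fin n → ℝ)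
    (g : Fin n → M) (g₀ : M) {ρ : ℝ} (ha : ∀ i, 0 ≤ a i) (hsum : ∑ i, a i = 1)
    (hg : ∀ i, a i ≠ 0 → g i ∈ Metric.ball g₀ ρ) : ∑ i, a i • g i ∈ Metric.ball g₀ ρ := by
  classical
  obtain ⟨i₀, hi₀⟩ : ∃ i₀, a i₀ ≠ 0 := by
    by_contra hcon
    push Not at hcon
    rw [Finset.sum_eq_zero fun i _ => hcon i] at hsum
    exact zero_ne_one hsum
  have h1 : ∑ i, a i • g i = ∑ i, a i • (if a i = 0 then g i₀ else g i) := by
    refine Finset.sum_congr rfl fun i _ => ?_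
    by_cases hi : a i = 0
    · rw [hi, zero_smul, zero_smul]
    · rw [if_neg hi]
  rw [h1]
  refine (convex_ball g₀ ρ).sum_mem (fun i _ => ha i) hsum fun i _ => ?_
  by_cases hi : a i = 0
  · rw [if_pos hi]
    exact hg i₀ hi₀
  · rw [if_neg hi]
    exact hg i hi

theorem nd_comb {V : Type} [NormedAddCommGroup V] [NormedSpace ℝ V] [FiniteDimensional ℝ V]
    {T : Set V} (hT : IsOpen T) (P : ℝ × V → V [⋀^Fin 2]→L[ℝ] ℝ)
    (hP : ∀ u v, ContinuousOn (fun z => P z ![u, v]) (univ ×ˢ T)) {t : ℝ} {p₀ : V}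
    (hp₀ : p₀ ∈ T) (h0 : Nd (P (t, p₀))) :
    ∃ ε : ℝ, 0 < ε ∧ ∀ᶠ p in 𝓝 p₀, ∀ (n : ℕ) (a s : Fin n → ℝ), (∀ i, 0 ≤ a i) → ∑ i, a i = 1 →
      (∀ i, a i ≠ 0 → |s i - t| < ε) → Nd (∑ i, a i • P (s i, p)) := by
  let G : ℝ × V → (V →L[ℝ] V →L[ℝ] ℝ) := fun z => lin (P z)
  have hG : ContinuousOn G (univ ×ˢ T) := by
    refine continuousOn_clm_apply.2 fun v => continuousOn_clm_apply.2 fun w => ?_
    exact hP w v
  have hGa : ContinuousAt G (t, p₀) :=
    hG.continuousAt ((isOpen_univ.prod hT).mem_nhds ⟨trivial, hp₀⟩)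
  have hO : IsOpen {L : V →L[ℝ] V →L[ℝ] ℝ | Function.Injective L} :=
    ContinuousLinearMap.isOpen_injective
  have h0' : G (t, p₀) ∈ {L : V →L[ℝ] V →L[ℝ] ℝ | Function.Injective L} := (nd_iff _).1 h0
  obtain ⟨ρ, hρ, hball⟩ := Metric.isOpen_iff.1 hO _ h0'
  have h1 : G ⁻¹' Metric.ball (G (t, p₀)) ρ ∈ 𝓝 (t, p₀) :=
    hGa (Metric.ball_mem_nhds (G (t, p₀)) hρ)
  obtain ⟨U, hU, W, hW, hUW⟩ := mem_nhds_prod_iff.1 h1
  obtain ⟨ε, hε, hεU⟩ := Metric.mem_nhds_iff.1 hU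
  refine ⟨ε, hε, ?_⟩
  filter_upwards [hW] with p hp n a s ha hsum hs
  refine (nd_iff _).2 (hball ?_)
  have h4 : lin (∑ i, a i • P (s i, p)) = ∑ i, a i • G (s i, p) := by
    have h5 : ∀ S : Finset (Fin n), lin (∑ i ∈ S, a i • P (s i, p)) =
        ∑ i ∈ S, a i • G (s i, p) := by
      intro S
      classical
      induction S using Finset.induction_on with
      | empty =>
        rw [Finset.sum_empty, Finset.sum_empty]
        ext u v
        rfl
      | insert j S hj ih =>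
        rw [Finset.sum_insert hj, Finset.sum_insert hj, ← ih]
        ext u v
        rfl
    exact h5 Finset.univ
  rw [h4]
  refine ball_comb a (fun i => G (s i, p)) (G (t, p₀)) ha hsum fun i hi => ?_
  have h7 : ((s i, p) : ℝ × V) ∈ U ×ˢ W := ⟨hεU (by
    rw [Metric.mem_ball, Real.dist_eq]
    exact hs i hi), hp⟩
  exact hUW h7

omit [IsManifold (𝓡 d) ∞ X] in
theorem pb_comb (φ : E d → X) {n : ℕ} (a : Fin n → ℝ) (τ : Fin n → Form d X 2) (p : E d) :
    pb φ (∑ i, a i • τ i) p = ∑ i, a i • pb φ (τ i) p := by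
  have h5 : ∀ S : Finset (Fin n), pb φ (∑ i ∈ S, a i • τ i) p =
      ∑ i ∈ S, a i • pb φ (τ i) p := by
    intro S
    classical
    induction S using Finset.induction_on with
    | empty =>
      rw [Finset.sum_empty, Finset.sum_empty, pb_zero]
      rfl
    | insert j S hj ih =>
      rw [Finset.sum_insert hj, Finset.sum_insert hj, ← ih, pb_add, pb_smul]
      rfl
  exact h5 Finset.univ

/-- convex combinations of forms at nearby times are nondegenerate -/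
theorem convex_nd [CompactSpace X] {τ : ℝ → Form d X 2} (hτ : CPath τ) (hn : ∀ t, NdF (τ t))
    (t : ℝ) : ∃ ε : ℝ, 0 < ε ∧ ∀ (n : ℕ) (a s : Fin n → ℝ), (∀ i, 0 ≤ a i) → ∑ i, a i = 1 →
      (∀ i, a i ≠ 0 → |s i - t| < ε) → NdF (∑ i, a i • τ (s i)) := by
  obtain ⟨ε, hε, h⟩ := unif (isCompact_univ (X := X))
    (fun ε y => ∀ (n : ℕ) (a s : Fin n → ℝ), (∀ i, 0 ≤ a i) → ∑ i, a i = 1 →
      (∀ i, a i ≠ 0 → |s i - t| < ε) →
        ∀ u : TangentSpace (𝓡 d) y, (∀ v, (∑ i, a i • τ (s i)) y ![u, v] = 0) → u = 0)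
    (fun ε ε' y hle hp n a s h0 h1 h2 => hp n a s h0 h1 fun i hi => (h2 i hi).trans_le hle)
    (by
      intro x _
      have hxs : x ∈ (chartAt (E d) x).source := mem_chart_source (E d) x
      obtain ⟨ε, hε, hev⟩ := nd_comb (V := E d) (chartAt (E d) x).open_target
        (fun z => pb (chartAt (E d) x).symm (τ z.1) z.2) (hτ x) (t := t)
        (mem_chart_target (E d) x) ((nd_at (τ t) x hxs).1 (hn t x))
      refine ⟨ε, hε, ?_⟩
      have h2 : ∀ᶠ y in 𝓝 x, y ∈ (chartAt (E d) x).source :=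
        (chartAt (E d) x).open_source.mem_nhds hxs
      have h3 := ((chartAt (E d) x).continuousAt hxs).eventually hev
      filter_upwards [h2, h3] with y hy1 hy2 n a s ha hsum hs
      refine (nd_at (∑ i, a i • τ (s i)) x hy1).2 ?_
      rw [pb_comb (chartAt (E d) x).symm a (fun i => τ (s i))]
      exact hy2 n a s ha hsum hs)
  exact ⟨ε, hε, fun n a s h0 h1 h2 y => h y (mem_univ y) n a s h0 h1 h2⟩

/-- continuous paths of symplectic forms can be made smooth in time -/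
theorem smooth_path [CompactSpace X] {τ : ℝ → Form d X 2} (hτ : CPath τ)
    (hs : ∀ t, IsSmooth (τ t)) (hc : ∀ t, IsClosedForm (τ t)) (hn : ∀ t, NdF (τ t)) :
    ∃ τ' : ℝ → Form d X 2, SPath τ' ∧ (∀ t, IsClosedForm (τ' t)) ∧
      (∀ t ∈ Icc (0 : ℝ) 1, NdF (τ' t)) ∧ τ' 0 = τ 0 ∧ τ' 1 = τ 1 := by
  choose ε hε hε' using fun t => convex_nd hτ hn t
  obtain ⟨δ, hδ, hleb⟩ := lebesgue_number_lemma_of_metric (isCompact_Icc (a := (0 : ℝ)) (b := 1))
    (c := fun t : ℝ => Metric.ball t (ε t)) (fun t => Metric.isOpen_ball)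
    (fun t _ => mem_iUnion.2 ⟨t, Metric.mem_ball_self (hε t)⟩)
  obtain ⟨n, c, f, h1, h2, h3, h4, h5, h6, h7⟩ := time_partition (fun _ => δ) (fun _ => hδ)
  have m0 : (0 : ℝ) ∈ Icc (0 : ℝ) 1 := ⟨le_rfl, zero_le_one⟩
  have m1 : (1 : ℝ) ∈ Icc (0 : ℝ) 1 := ⟨zero_le_one, le_rfl⟩
  refine ⟨fun t => ∑ i, f i t • τ (c i), SPath.sum _ fun i _ => SPath.mul (h2 i) (hs _), ?_, ?_,
    partition_end (h4 0 m0) h6 τ, partition_end (h4 1 m1) h7 τ⟩
  · intro t
    exact (ST.closed_sum Finset.univ fun i _ => ST.closed_smul ⟨hs (c i), hc (c i)⟩ (f i t)).2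
  · intro t ht
    obtain ⟨t', ht'⟩ := hleb t ht
    refine hε' t' n (fun i => f i t) c (fun i => h3 i t) (h4 t ht) fun i hi => ?_
    have h8 : c i ∈ Metric.ball t δ := by
      rw [Metric.mem_ball, Real.dist_eq, abs_sub_comm]
      exact h5 i t hi
    have h9 := ht' h8
    rwa [Metric.mem_ball, Real.dist_eq] at h9

end

end Pool.Agent.K7.H28.SB
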