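import Pool.Agent.K7.H28.SB.B1

/-!
# Continuity of averages in time, and invertibility of the averaged coefficients
-/

set_option autoImplicit false

open Set Filter Topology MeasureTheory
open scoped Manifold ContDiff

noncomputable section

namespace Pool.Agent.K7.H28.SB

open Pool.Agent.Y501.SY Pool.Agent.Y455.SY Pool.Agent.K7.H28.SP Pool.Agent.K7.H28.ST

section

variable {d q : ℕ} {X : Type} [TopologicalSpace X] [ChartedSpace (E d) X]

/-- continuity in time of a path of forms, uniformly along the second factor -/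
def UCont (om : ℝ → PForm d q X) : Prop :=
  ∀ (U : Set (E d)) (φ : E d → X), IsOpen U → ContMDiffOn (𝓡 d) (𝓡 d) ∞ φ U → ∀ t, ∀ p ∈ U,
    ∀ ε : ℝ, 0 < ε → ∀ᶠ z : ℝ × E d in 𝓝 (t, p), ∀ s : E q,
      ‖ppb φ (om z.1) (z.2, s) - ppb φ (om t) (p, s)‖ ≤ ε

variable {m : (Multiplicative (E q) → ℝ) → ℝ} {om : ℝ → PForm d q X}

/-- the averages are continuous in time and space -/
theorem mean_cont (hm : IsMean m) (h : ∀ t, PHyp (om t)) (hc : UCont om) {U : Set (E d)}
    {φ : E d → X} (hU : IsOpen U) (hφ : ContMDiffOn (𝓡 d) (𝓡 d) ∞ φ U) (v w : E d × E q) :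
    ContinuousOn (fun z : ℝ × E d => Mg m (co φ (om z.1) v w) z.2) (univ ×ˢ U) := by
  rintro ⟨t, p⟩ ⟨-, hp⟩
  refine ContinuousAt.continuousWithinAt ?_
  rw [Metric.continuousAt_iff']
  intro ε hε
  set κ : ℝ := ‖v‖ * ‖w‖ + 1 with hκ
  have hκ0 : 0 < κ := by positivity
  have h1 := hc U φ hU hφ t p hp (ε / (2 * κ)) (by positivity)
  have h2 : ∀ᶠ z : ℝ × E d in 𝓝 (t, p), z.2 ∈ U :=
    continuousAt_snd.eventually_mem (hU.mem_nhds hp)
  filter_upwards [h1, h2] with z hz hzU
  have b1 := (co_bd (h z.1) hU hφ v w).bdd hU hzU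
  have b2 := (co_bd (h t) hU hφ v w).bdd hU hp
  rw [Real.dist_eq]
  change |m (fun γ => co φ (om z.1) v w (z.2, Multiplicative.toAdd γ)) -
    m (fun γ => co φ (om t) v w (p, Multiplicative.toAdd γ))| < ε
  rw [← Pool.Agent.Y153.SY.m_sub hm b1 b2]
  have h3 : |m (fun γ => co φ (om z.1) v w (z.2, Multiplicative.toAdd γ) -
      co φ (om t) v w (p, Multiplicative.toAdd γ))| ≤ ε / (2 * κ) * (‖v‖ * ‖w‖) := by
    refine Pool.Agent.Y141.SY.mean_abs hm fun γ => ?_
    have h4 : co φ (om z.1) v w (z.2, Multiplicative.toAdd γ) -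
        co φ (om t) v w (p, Multiplicative.toAdd γ) =
        (ppb φ (om z.1) (z.2, Multiplicative.toAdd γ) -
          ppb φ (om t) (p, Multiplicative.toAdd γ)) ![v, w] := rfl
    rw [h4, ← Real.norm_eq_abs]
    refine (ContinuousAlternatingMap.le_opNorm _ _).trans ?_
    rw [Fin.prod_univ_two]
    change _ * (‖v‖ * ‖w‖) ≤ _
    exact mul_le_mul_of_nonneg_right (hz _) (by positivity)
  refine h3.trans_lt ?_
  have h5 : ‖v‖ * ‖w‖ < κ := by rw [hκ]; linarith
  have h6 : ε / (2 * κ) * (‖v‖ * ‖w‖) ≤ ε / (2 * κ) * κ :=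
    mul_le_mul_of_nonneg_left h5.le (by positivity)
  have h7 : ε / (2 * κ) * κ = ε / 2 := by
    field_simp
  rw [h7] at h6
  linarith

/-- one-forms from fields of linear forms -/
def oneF (L : X → E d →L[ℝ] ℝ) : Form d X 1 := fun x => one (V := E d) (L x)

theorem smooth_one {U : Set (E d)} {f : E d → (E d) [⋀^Fin 1]→L[ℝ] ℝ}
    (h : ∀ v : Fin 1 → E d, ContDiffOn ℝ ∞ (fun p => f p v) U) : ContDiffOn ℝ ∞ f U := by
  let b := (EuclideanSpace.basisFun (Fin d) ℝ).toBasis
  let ev : ((E d) [⋀^Fin 1]→L[ℝ] ℝ) →ₗ[ℝ] ((Fin 1 → Fin d) → ℝ) :=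
    { toFun := fun α s => α (fun i => b (s i))
      map_add' := fun _ _ => rfl
      map_smul' := fun _ _ => rfl }
  have hker : LinearMap.ker ev = ⊥ := by
    rw [LinearMap.ker_eq_bot]
    intro α β hαβ
    have h1 : α.toAlternatingMap = β.toAlternatingMap := by
      refine Module.Basis.ext_alternating b fun s _ => ?_
      exact congrFun hαβ s
    exact ContinuousAlternatingMap.toAlternatingMap_injective h1
  obtain ⟨g, hg⟩ := ev.exists_leftInverse_of_injective hker
  have h2 : ContDiffOn ℝ ∞ (fun p => ev (f p)) U := by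
    rw [contDiffOn_pi]
    intro s
    exact h _
  have h3 : ContDiffOn ℝ ∞ (fun p => (LinearMap.toContinuousLinearMap g) (ev (f p))) U :=
    (LinearMap.toContinuousLinearMap g).contDiff.comp_contDiffOn h2
  refine h3.congr fun p _ => ?_
  exact (LinearMap.congr_fun hg (f p)).symm

/-- the exterior derivative of a one-form in terms of its coefficients -/
theorem ext_one {f : E d → (E d) [⋀^Fin 1]→L[ℝ] ℝ} {p : E d} (hf : DifferentiableAt ℝ f p)
    (h : ∀ u v : E d, fderiv ℝ (fun p => f p ![v]) p u = fderiv ℝ (fun p => f p ![u]) p v) :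
    extDeriv f p = 0 := by
  ext v
  have hv : v = ![v 0, v 1] := by
    funext i
    fin_cases i <;> rfl
  rw [hv]
  have h2 := extDeriv_apply hf ![v 0, v 1]
  rw [Fin.sum_univ_two] at h2
  have e0 : Fin.removeNth (0 : Fin 2) ![v 0, v 1] = ![v 1] := by
    funext i
    fin_cases i
    rfl
  have e1 : Fin.removeNth (1 : Fin 2) ![v 0, v 1] = ![v 0] := by
    funext i
    fin_cases i
    rfl
  rw [e0, e1] at h2
  rw [h2]
  have h3 := h (v 0) (v 1)
  simp only [Fin.val_zero, pow_zero, one_smul, Fin.val_one, pow_one, neg_smul,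
    Matrix.cons_val_zero, Matrix.cons_val_one]
  change fderiv ℝ (fun p => f p ![v 1]) p (v 0) + -fderiv ℝ (fun p => f p ![v 0]) p (v 1) = 0
  linarith

end

section

variable {d q : ℕ} {X : Type} [TopologicalSpace X] [ChartedSpace (E d) X]
  [IsManifold (𝓡 d) ∞ X] {m : (Multiplicative (E q) → ℝ) → ℝ} {om : PForm d q X}
  {av : X → (E d × E q) [⋀^Fin 2]→L[ℝ] ℝ}

/-- the combination of the mixed components with coefficients `n` -/
def mix (av : X → (E d × E q) [⋀^Fin 2]→L[ℝ] ℝ) (n : Fin q → ℝ) : Form d X 1 :=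
  oneF fun x => ∑ j, n j • ai av j x

omit [IsManifold (𝓡 d) ∞ X] in
theorem pb_mix (hav : ∀ (x : X) (u : Fin 2 → E d × E q),
      av x u = m (fun γ => fib om x (Multiplicative.toAdd γ) u)) (n : Fin q → ℝ) (φ : E d → X)
    (u : Fin 1 → E d) (p : E d) :
    pb φ (mix av n) p u = ∑ j, n j * Mg m (co φ om (u 0, 0) (ee j)) p := by
  change (∑ j, n j • ai av j (φ p)) (mfderiv (𝓡 d) (𝓡 d) φ p (u 0)) = _
  have h1 : ∀ w : E d, (∑ j, n j • ai av j (φ p)) w = ∑ j, n j * ai av j (φ p) w := by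
    intro w
    rw [_root_.sum_apply]
    rfl
  refine (h1 _).trans (Finset.sum_congr rfl fun j _ => ?_)
  rw [← pb_ai hav]

theorem mix_props (hm : IsMean m) (h : PHyp om) (hav : ∀ (x : X) (u : Fin 2 → E d × E q),
      av x u = m (fun γ => fib om x (Multiplicative.toAdd γ) u)) (n : Fin q → ℝ) :
    IsSmooth (mix av n) ∧ IsClosedForm (mix av n) := by
  have hsm : ∀ (U : Set (E d)) (φ : E d → X), IsOpen U → ContMDiffOn (𝓡 d) (𝓡 d) ∞ φ U →
      ∀ (v : E d) (j : Fin q), ContDiffOn ℝ ∞ (Mg m (co φ om (v, 0) (ee j))) U :=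
    fun U φ hU hφ v j => (co_bd h hU hφ _ _).smooth_mean hm hU
  have hs : IsSmooth (mix av n) := by
    intro U φ hU hφ
    refine smooth_one fun v => ?_
    have e : (fun p => pb φ (mix av n) p v) = fun p =>
        ∑ j, n j * Mg m (co φ om (v 0, 0) (ee j)) p := by
      funext p
      exact pb_mix hav n φ v p
    rw [e]
    exact ContDiffOn.sum fun j _ => contDiffOn_const.mul (hsm U φ hU hφ (v 0) j)
  refine ⟨hs, fun U φ hU hφ p hp => ?_⟩
  refine ext_one (hs.diffAt hU hφ hp) fun u v => ?_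
  have hd : ∀ (v : E d) (i : Fin q),
      DifferentiableAt ℝ (Mg m (co φ om (v, 0) (ee i))) p := fun v i =>
    ((hsm U φ hU hφ v i).contDiffAt (hU.mem_nhds hp)).differentiableAt (by simp)
  have hsym : ∀ (u v : E d) (i : Fin q), fderiv ℝ (Mg m (co φ om (v, 0) (ee i))) p u =
      fderiv ℝ (Mg m (co φ om (u, 0) (ee i))) p v := by
    intro u v i
    have h1 := avg_closed hm h hU hφ hp (u, 0) (v, 0) (ee i)
    have h2 : fderiv ℝ (Mg m (co φ om ((u, 0) : E d × E q) (v, 0))) p
        ((ee i : E d × E q).1) = 0 := by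
      change fderiv ℝ _ p 0 = 0
      rw [map_zero]
    rw [h2] at h1
    change fderiv ℝ (Mg m (co φ om (v, 0) (ee i))) p u -
      fderiv ℝ (Mg m (co φ om (u, 0) (ee i))) p v + 0 = 0 at h1
    linarith
  have hval : ∀ (u v : E d), fderiv ℝ (fun p => pb φ (mix av n) p ![v]) p u =
      ∑ j, n j * fderiv ℝ (Mg m (co φ om (v, 0) (ee j))) p u := by
    intro u v
    have e : (fun p => pb φ (mix av n) p ![v]) = fun p =>
        ∑ j, n j * Mg m (co φ om (v, 0) (ee j)) p := by
      funext p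
      exact pb_mix hav n φ ![v] p
    rw [e]
    have h1 : HasFDerivAt (fun p => ∑ j, n j * Mg m (co φ om (v, 0) (ee j)) p)
        (∑ j, n j • fderiv ℝ (Mg m (co φ om (v, 0) (ee j))) p) p :=
      HasFDerivAt.fun_sum fun j _ => (hd v j).hasFDerivAt.const_mul (n j)
    rw [h1.fderiv, _root_.sum_apply]
    rfl
  rw [hval, hval]
  exact Finset.sum_congr rfl fun j _ => by rw [hsym u v j]

/-- if every closed one-form has a zero then the coefficients in the second factor of the average
are invertible -/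
theorem F_inv [PreconnectedSpace X] (hm : IsMean m) (h : PHyp om)
    (hav : ∀ (x : X) (u : Fin 2 → E d × E q),
      av x u = m (fun γ => fib om x (Multiplicative.toAdd γ) u))
    (hz : ∀ β : Form d X 1, IsSmooth β → IsClosedForm β → ∃ x, β x = 0) (x₀ : X) :
    (Fij av x₀).det ≠ 0 := by
  intro hdet
  obtain ⟨n, hn, hn0⟩ := Matrix.exists_mulVec_eq_zero_iff.2 hdet
  obtain ⟨hs, hcl⟩ := mix_props hm h hav n
  obtain ⟨x, hx⟩ := hz _ hs hcl
  have hFx : Fij av x = Fij av x₀ := F_const hm h hav x x₀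
  have hnd : Nd (av x) := avg_nd hm h hav x (fib_bdd h x)
  have h1 : ∑ j, n j • (ee j : E d × E q) = 0 := by
    refine hnd _ fun w => ?_
    obtain ⟨u, s⟩ := w
    rw [al_swap, al_sum1, pair_sum u s]
    have h2 : ∀ j, av x ![((u, 0) : E d × E q) + ∑ i, s i • (ee i : E d × E q), ee j] =
        av x ![((u, 0) : E d × E q), ee j] + ∑ i, s i * Fij av x i j := by
      intro j
      rw [al_add0, al_sum0]
      rfl
    simp_rw [h2, mul_add]
    rw [Finset.sum_add_distrib]
    have h3 : ∑ j, n j * av x ![((u, 0) : E d × E q), ee j] = 0 := by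
      have h4 : (mix av n x) ![u] = 0 := by
        rw [hx]
        rfl
      have h5 : (mix av n x) ![u] = ∑ j, n j * av x ![((u, 0) : E d × E q), ee j] := by
        change (∑ j, n j • ai av j x) u = _
        rw [_root_.sum_apply]
        rfl
      rw [← h5]
      exact h4
    have h4 : ∑ j, n j * ∑ i, s i * Fij av x i j = 0 := by
      have h5 : ∑ j, n j * ∑ i, s i * Fij av x i j = ∑ i, s i * ∑ j, Fij av x i j * n j := by
        simp_rw [Finset.mul_sum]
        rw [Finset.sum_comm]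
        refine Finset.sum_congr rfl fun i _ => Finset.sum_congr rfl fun j _ => ?_
        ring
      rw [h5]
      refine Finset.sum_eq_zero fun i _ => ?_
      have h6 : ∑ j, Fij av x i j * n j = 0 := by
        rw [hFx]
        exact congrFun hn0 i
      rw [h6, mul_zero]
    rw [h3, h4, add_zero, neg_zero]
  refine hn (funext fun k => ?_)
  have h2 := congrArg (fun z : E d × E q => z.2 k) h1
  have h3 : (∑ j, n j • (ee j : E d × E q)).2 k = n k := by
    rw [Prod.snd_sum]
    have h4 : ∑ j, (n j • (ee j : E d × E q)).2 =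
        ∑ j, n j • (EuclideanSpace.single j (1 : ℝ) : E q) := rfl
    rw [h4]
    have h5 := (EuclideanSpace.basisFun (Fin q) ℝ).sum_repr (WithLp.toLp 2 n : E q)
    have h6 : ∑ j, n j • (EuclideanSpace.single j (1 : ℝ) : E q) = (WithLp.toLp 2 n : E q) := by
      simpa using h5
    rw [h6]
  have h4 : (∑ j, n j • (ee j : E d × E q)).2 k = 0 := by
    rw [h1]
    rfl
  rw [← h3]
  exact h4

end

end Pool.Agent.K7.H28.SB
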