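import Pool.Agent.K7.H28.SB.B2

/-!
# The averaged path
-/

set_option autoImplicit false

open Set Filter Topology MeasureTheory
open scoped Manifold ContDiff

noncomputable section

namespace Pool.Agent.K7.H28.SB

open Pool.Agent.Y501.SY Pool.Agent.Y455.SY Pool.Agent.K7.H28.SP Pool.Agent.K7.H28.ST

section

variable {d q : ℕ} {X : Type} [TopologicalSpace X] [ChartedSpace (E d) X]
  {m : (Multiplicative (E q) → ℝ) → ℝ} {om : PForm d q X}
  {av : X → (E d × E q) [⋀^Fin 2]→L[ℝ] ℝ}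

/-- the reduced form -/
def red (av : X → (E d × E q) [⋀^Fin 2]→L[ℝ] ℝ) (H : Matrix (Fin q) (Fin q) ℝ) : Form d X 2 :=
  w0 av + ∑ i, ∑ j, (H i j / 2) • Wij av i j

theorem red_apply (av : X → (E d × E q) [⋀^Fin 2]→L[ℝ] ℝ) (H : Matrix (Fin q) (Fin q) ℝ) (x : X)
    (u v : E d) : red av H x ![u, v] =
      av x ![((u : E d), (0 : E q)), (v, 0)] + ∑ i, ∑ j, (H i j / 2) *
        (av x ![((u : E d), (0 : E q)), ee i] * av x ![(v, 0), ee j] -
          av x ![((v : E d), (0 : E q)), ee i] * av x ![(u, 0), ee j]) := by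
  have h4 : (∑ i, ∑ j, (H i j / 2) • Wij av i j) x = ∑ i, ∑ j, (H i j / 2) • Wij av i j x := by
    rw [Finset.sum_apply]
    refine Finset.sum_congr rfl fun i _ => ?_
    rw [Finset.sum_apply]
    rfl
  have h5 : red av H x ![u, v] =
      w0 av x ![u, v] + (∑ i, ∑ j, (H i j / 2) • Wij av i j) x ![u, v] := rfl
  rw [h5, h4, ContinuousAlternatingMap.sum_apply]
  congr 1
  · change av x (fun i => ContinuousLinearMap.inl ℝ (E d) (E q)
      ((![u, v] : Fin 2 → E d) i)) = _
    congr 1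
    funext i
    fin_cases i <;> rfl
  · refine Finset.sum_congr rfl fun i _ => ?_
    rw [ContinuousAlternatingMap.sum_apply]
    refine Finset.sum_congr rfl fun j _ => ?_
    have h6 := wedge_apply (V := E d) (ai av i x) (ai av j x) ![u, v]
    change (H i j / 2) * Wij av i j x ![u, v] = _
    congr 1

theorem pb_red (hav : ∀ (x : X) (u : Fin 2 → E d × E q),
      av x u = m (fun γ => fib om x (Multiplicative.toAdd γ) u)) (H : Matrix (Fin q) (Fin q) ℝ)
    (φ : E d → X) (u v p : E d) : pb φ (red av H) p ![u, v] =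
      Mg m (co φ om (u, 0) (v, 0)) p + ∑ i, ∑ j, (H i j / 2) *
        (Mg m (co φ om (u, 0) (ee i)) p * Mg m (co φ om (v, 0) (ee j)) p -
          Mg m (co φ om (v, 0) (ee i)) p * Mg m (co φ om (u, 0) (ee j)) p) := by
  have h1 : pb φ (red av H) p ![u, v] = red av H (φ p)
      ![mfderiv (𝓡 d) (𝓡 d) φ p u, mfderiv (𝓡 d) (𝓡 d) φ p v] := by
    change red av H (φ p) (fun k => mfderiv (𝓡 d) (𝓡 d) φ p ((![u, v] : Fin 2 → E d) k)) = _
    congr 1
    funext k
    fin_cases k <;> rfl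
  refine h1.trans ((red_apply av H (φ p) _ _).trans ?_)
  have h2 : av (φ p) ![((mfderiv (𝓡 d) (𝓡 d) φ p u : E d), (0 : E q)),
      ((mfderiv (𝓡 d) (𝓡 d) φ p v : E d), (0 : E q))] = Mg m (co φ om (u, 0) (v, 0)) p :=
    co_avg hav φ (u, 0) (v, 0) p
  have h3 : ∀ (w : E d) (i : Fin q), av (φ p) ![((mfderiv (𝓡 d) (𝓡 d) φ p w : E d), (0 : E q)),
      ee i] = Mg m (co φ om (w, 0) (ee i)) p := fun w i => pb_ai hav φ i w p
  rw [h2]
  simp_rw [h3]

variable [IsManifold (𝓡 d) ∞ X]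

theorem red_props (hm : IsMean m) (h : PHyp om) (hav : ∀ (x : X) (u : Fin 2 → E d × E q),
      av x u = m (fun γ => fib om x (Multiplicative.toAdd γ) u)) (H : Matrix (Fin q) (Fin q) ℝ) :
    IsSmooth (red av H) ∧ IsClosedForm (red av H) := by
  have hW : IsSmooth (∑ i, ∑ j, (H i j / 2) • Wij av i j) ∧
      IsClosedForm (∑ i, ∑ j, (H i j / 2) • Wij av i j) :=
    ST.closed_sum _ fun i _ => ST.closed_sum _ fun j _ =>
      ST.closed_smul (Wij_props hm h hav i j) _
  have hw0 := w0_props hm h hav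
  refine ⟨hw0.1.add hW.1, ?_⟩
  have h1 := IsD.add hw0.2 hW.2 hw0.1 hW.1
  rw [add_zero] at h1
  exact h1

omit [IsManifold (𝓡 d) ∞ X] in
theorem red_nd {F H : Matrix (Fin q) (Fin q) ℝ} (hF : ∀ x, Fij av x = F)
    (hFt : F.transpose = -F) (hHF : H * F = 1) (hFH : F * H = 1) (hnd : ∀ x, Nd (av x)) :
    NdF (red av H) := by
  have hHt : H.transpose = -H := by
    have h1 : H.transpose * F.transpose = 1 := by
      rw [← Matrix.transpose_mul, hFH, Matrix.transpose_one]
    rw [hFt, Matrix.mul_neg] at h1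
    calc H.transpose = H.transpose * (F * H) := by rw [hFH, Matrix.mul_one]
      _ = -((-(H.transpose * F)) * H) := by rw [Matrix.neg_mul, neg_neg, Matrix.mul_assoc]
      _ = -H := by rw [h1, Matrix.one_mul]
  intro x
  suffices key : ∀ u : E d, (∀ v : E d, red av H x ![u, v] = 0) → u = 0 from
    fun u hu => key u hu
  intro u hu
  refine schur (av x) F H ?_ hHF (hnd x) u fun v => ?_
  · intro i j
    rw [← hF x]
    rfl
  · rw [← antisymm_sum hHt (fun i => av x ![((u : E d), (0 : E q)), ee i])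
      (fun j => av x ![(v, 0), ee j]), ← red_apply av H x u v]
    exact hu v

end

section

variable {d q : ℕ} {X : Type} [TopologicalSpace X] [ChartedSpace (E d) X]
  [IsManifold (𝓡 d) ∞ X] {m : (Multiplicative (E q) → ℝ) → ℝ} {om : ℝ → PForm d q X}
  {av : ℝ → X → (E d × E q) [⋀^Fin 2]→L[ℝ] ℝ}

omit [IsManifold (𝓡 d) ∞ X] in
theorem inv_cont {F : ℝ → Matrix (Fin q) (Fin q) ℝ} (hF : ∀ i j, Continuous fun t => F t i j)
    (hd : ∀ t, (F t).det ≠ 0) (i j : Fin q) : Continuous fun t => (F t)⁻¹ i j := by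
  have h1 : Continuous F := continuous_matrix hF
  have h2 : Continuous fun t => (F t).det := h1.matrix_det
  have h3 : Continuous fun t => (F t).adjugate := h1.matrix_adjugate
  have h4 : (fun t => (F t)⁻¹ i j) = fun t => ((F t).det)⁻¹ * (F t).adjugate i j := by
    funext t
    rw [Matrix.inv_def, Ring.inverse_eq_inv']
    rfl
  rw [h4]
  exact (h2.inv₀ hd).mul (h3.matrix_elem i j)

theorem F_cont (hm : IsMean m) (h : ∀ t, PHyp (om t)) (hc : UCont om)
    (hav : ∀ (t : ℝ) (x : X) (u : Fin 2 → E d × E q),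
      av t x u = m (fun γ => fib (om t) x (Multiplicative.toAdd γ) u)) (x₀ : X) (i j : Fin q) :
    Continuous fun t => Fij (av t) x₀ i j := by
  set c := chartAt (E d) x₀ with hcd
  have hpt : c x₀ ∈ c.target := mem_chart_target (E d) x₀
  have h1 := mean_cont hm h hc c.open_target contMDiffOn_chart_symm (ee i) (ee j)
  have h2 : (fun t => Fij (av t) x₀ i j) = fun t =>
      Mg m (co c.symm (om t) (ee i) (ee j)) (c x₀) := by
    funext t
    have h3 := pb_Fij (hav t) c.symm i j (c x₀)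
    rwa [c.left_inv (mem_chart_source (E d) x₀)] at h3
  rw [h2]
  exact h1.comp_continuous (f := fun t : ℝ => (t, c x₀)) (by fun_prop)
    fun t => ⟨trivial, hpt⟩

/-- the averaged path is continuous -/
theorem red_cpath (hm : IsMean m) (h : ∀ t, PHyp (om t)) (hc : UCont om)
    (hav : ∀ (t : ℝ) (x : X) (u : Fin 2 → E d × E q),
      av t x u = m (fun γ => fib (om t) x (Multiplicative.toAdd γ) u))
    {H : ℝ → Matrix (Fin q) (Fin q) ℝ} (hH : ∀ i j, Continuous fun t => H t i j) :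
    CPath fun t => red (av t) (H t) := by
  intro x₀ u v
  have hT := (chartAt (E d) x₀).open_target
  have h1 : ∀ v w : E d × E q, ContinuousOn
      (fun z : ℝ × E d => Mg m (co (chartAt (E d) x₀).symm (om z.1) v w) z.2)
      (univ ×ˢ (chartAt (E d) x₀).target) :=
    fun v w => mean_cont hm h hc hT contMDiffOn_chart_symm v w
  have h2 : (fun z : ℝ × E d => pb (chartAt (E d) x₀).symm (red (av z.1) (H z.1)) z.2 ![u, v]) =
      fun z => Mg m (co (chartAt (E d) x₀).symm (om z.1) (u, 0) (v, 0)) z.2 +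
        ∑ i, ∑ j, (H z.1 i j / 2) *
        (Mg m (co (chartAt (E d) x₀).symm (om z.1) (u, 0) (ee i)) z.2 *
          Mg m (co (chartAt (E d) x₀).symm (om z.1) (v, 0) (ee j)) z.2 -
          Mg m (co (chartAt (E d) x₀).symm (om z.1) (v, 0) (ee i)) z.2 *
          Mg m (co (chartAt (E d) x₀).symm (om z.1) (u, 0) (ee j)) z.2) := by
    funext z
    exact pb_red (hav z.1) (H z.1) _ u v z.2
  rw [h2]
  refine (h1 _ _).add ?_
  refine continuousOn_finsetSum _ fun i _ => continuousOn_finsetSum _ fun j _ => ?_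
  refine ContinuousOn.mul ?_ (((h1 _ _).mul (h1 _ _)).sub ((h1 _ _).mul (h1 _ _)))
  exact (((hH i j).comp continuous_fst).div_const 2).continuousOn

omit [IsManifold (𝓡 d) ∞ X] in
/-- the sums of a smooth path and of a constant form are continuous in time -/
theorem sum_cont {τ : ℝ → Form d X 2} (hτ : SPath τ) {Jm : Matrix (Fin q) (Fin q) ℝ}
    (hJ : Jm.transpose = -Jm) {U : Set (E d)} {φ : E d → X} (hU : IsOpen U)
    (hφ : ContMDiffOn (𝓡 d) (𝓡 d) ∞ φ U) (t : ℝ) {p : E d} (hp : p ∈ U) {ε : ℝ} (hε : 0 < ε) :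
    ∀ᶠ z : ℝ × E d in 𝓝 (t, p), ∀ s : E q,
      ‖ppb φ (sumF (q := q) (τ z.1) Jm) (z.2, s) - ppb φ (sumF (τ t) Jm) (p, s)‖ ≤ ε := by
  have h1 := hτ U φ hU hφ
  have h2 : ContinuousAt (fun z : ℝ × E d => pb φ (τ z.1) z.2) (t, p) :=
    h1.continuousOn.continuousAt ((isOpen_univ.prod hU).mem_nhds ⟨trivial, hp⟩)
  have h3 : ∀ (t : ℝ) (z : E d × E q), ppb φ (sumF (τ t) Jm) z =
      ContinuousAlternatingMap.compContinuousLinearMapCLM
        (ContinuousLinearMap.fst ℝ (E d) (E q)) (pb φ (τ t) z.1) + Jf d Jm := fun t z =>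
    congrFun (ppb_sumF (τ t) hJ φ) z
  set L : (E d) [⋀^Fin 2]→L[ℝ] ℝ →L[ℝ] (E d × E q) [⋀^Fin 2]→L[ℝ] ℝ :=
    ContinuousAlternatingMap.compContinuousLinearMapCLM
      (ContinuousLinearMap.fst ℝ (E d) (E q)) with hL
  have h4 : ContinuousAt (fun z : ℝ × E d => L (pb φ (τ z.1) z.2)) (t, p) :=
    L.continuous.continuousAt.comp h2
  have h5 := (Metric.continuousAt_iff'.1 h4) ε hε
  refine h5.mono fun z hz s => ?_
  rw [h3, h3, add_sub_add_right_eq_sub]
  rw [dist_eq_norm] at hz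
  exact hz.le

/-- the averaged path of a path of forms, continuous along the second factor, is a path of
symplectic forms -/
theorem avg_path [CompactSpace X] [ConnectedSpace X]
    (hz : ∀ β : Form d X 1, IsSmooth β → IsClosedForm β → ∃ x, β x = 0)
    (h : ∀ t, PHyp (om t)) (hc : UCont om) {Jm : Matrix (Fin q) (Fin q) ℝ}
    {τ₀ τ₁ : Form d X 2}
    (h0 : ∀ x t (z w : E d × E q), fib (om 0) x t ![z, w] =
      τ₀ x ![z.1, w.1] + ∑ i, ∑ j, Jm i j * (z.2 i * w.2 j))
    (h1 : ∀ x t (z w : E d × E q), fib (om 1) x t ![z, w] =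
      τ₁ x ![z.1, w.1] + ∑ i, ∑ j, Jm i j * (z.2 i * w.2 j)) :
    ∃ τ : ℝ → Form d X 2, SPath τ ∧ (∀ t, IsClosedForm (τ t)) ∧
      (∀ t ∈ Icc (0 : ℝ) 1, NdF (τ t)) ∧ τ 0 = τ₀ ∧ τ 1 = τ₁ := by
  obtain ⟨m, hm⟩ := amenable_comm (Γ := Multiplicative (E q))
  choose av hav using fun t => exists_om hm (h t)
  obtain ⟨x₀⟩ := (inferInstance : Nonempty X)
  have hF : ∀ t x, Fij (av t) x = Fij (av t) x₀ := fun t x => F_const hm (h t) (hav t) x x₀
  have hdet : ∀ t, (Fij (av t) x₀).det ≠ 0 := fun t => F_inv hm (h t) (hav t) hz x₀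
  have hFt : ∀ t, (Fij (av t) x₀).transpose = -Fij (av t) x₀ := by
    intro t
    ext i j
    exact al_swap (av t x₀) (ee j) (ee i)
  have hHc : ∀ i j, Continuous fun t => (Fij (av t) x₀)⁻¹ i j :=
    inv_cont (F_cont hm h hc hav x₀) hdet
  have hcp := red_cpath hm h hc hav hHc
  have hu : ∀ t, IsUnit (Fij (av t) x₀).det := fun t => isUnit_iff_ne_zero.2 (hdet t)
  obtain ⟨τ, g1, g2, g3, g4, g5⟩ := smooth_path hcp
    (fun t => (red_props hm (h t) (hav t) _).1) (fun t => (red_props hm (h t) (hav t) _).2)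
    (fun t => red_nd (hF t) (hFt t) (Matrix.nonsing_inv_mul _ (hu t))
      (Matrix.mul_nonsing_inv _ (hu t)) fun x => avg_nd hm (h t) (hav t) x (fib_bdd (h t) x))
  have hend : ∀ (t : ℝ) (σ : Form d X 2), (∀ x s (z w : E d × E q), fib (om t) x s ![z, w] =
      σ x ![z.1, w.1] + ∑ i, ∑ j, Jm i j * (z.2 i * w.2 j)) →
      red (av t) (Fij (av t) x₀)⁻¹ = σ := by
    intro t σ hσ
    have e1 : ∀ x (z w : E d × E q), av t x ![z, w] =
        σ x ![z.1, w.1] + ∑ i, ∑ j, Jm i j * (z.2 i * w.2 j) := by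
      intro x z w
      rw [hav]
      simp_rw [hσ]
      exact Pool.Agent.Y141.SY.mean_const hm _
    funext x
    have e2 : ∀ u v : E d, red (av t) (Fij (av t) x₀)⁻¹ x ![u, v] = σ x ![u, v] := by
      intro u v
      rw [red_apply]
      have e3 : ∀ (w : E d) (i : Fin q), av t x ![((w : E d), (0 : E q)), ee i] = 0 := by
        intro w i
        rw [e1]
        have e4 : σ x ![w, (0 : E d)] = 0 := by
          have h5 := al_smul1 (V := E d) (σ x) 0 w (0 : E d)
          rw [zero_smul, zero_mul] at h5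
          exact h5
        have e5 : ∑ k, ∑ l, Jm k l * ((0 : E q) k * (ee i : E d × E q).2 l) = 0 :=
          Finset.sum_eq_zero fun k _ => Finset.sum_eq_zero fun l _ => by
            change Jm k l * (0 * _) = 0
            ring
        change σ x ![w, (0 : E d)] + ∑ k, ∑ l, Jm k l * ((0 : E q) k * (ee i : E d × E q).2 l) = 0
        rw [e4, e5, add_zero]
      simp_rw [e3]
      rw [e1]
      have e5 : ∑ k, ∑ l, Jm k l * ((0 : E q) k * (0 : E q) l) = 0 :=
        Finset.sum_eq_zero fun k _ => Finset.sum_eq_zero fun l _ => by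
          change Jm k l * (0 * _) = 0
          ring
      change σ x ![u, v] + ∑ k, ∑ l, Jm k l * ((0 : E q) k * (0 : E q) l) + _ = _
      rw [e5]
      simp
    have e6 : ∀ (a b : (E d) [⋀^Fin 2]→L[ℝ] ℝ), (∀ u v : E d, a ![u, v] = b ![u, v]) → a = b := by
      intro a b hab
      ext w
      rw [vec2' w]
      exact hab _ _
    exact e6 _ _ e2
  exact ⟨τ, g1, g2, g3, g4.trans (hend 0 τ₀ h0), g5.trans (hend 1 τ₁ h1)⟩

end

end Pool.Agent.K7.H28.SB
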