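import Pool.Agent.K7.H28.SB.PubR
import Pool.Agent.K7.H28.SB.B3
import Pool.Agent.K7.H28.ST.BridgeB
import Pool.Agent.K7.H28.SP.BridgeQ

/-!
Paths of bounded two-forms: comparison of the definitions.
-/

set_option autoImplicit false

open Set Filter Topology
open scoped Manifold ContDiff

noncomputable section

namespace Pool.Agent.K7.H28.SBP

open Pool.Agent.Y501.SYP
open Pool.Agent.K7.H28.STP
open Pool.Agent.K7.H28.SPP
open Pool.Agent.Y501
open Pool.Agent

section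

variable {d q : ℕ} {X : Type} [TopologicalSpace X] [ChartedSpace (ES d) X]

attribute [local instance] Pool.Agent.Y501.SYP.cs
attribute [local instance] Pool.Agent.Y501.SYP.mf

/-- the retraction of the line onto the unit interval -/
def cl (t : ℝ) : ℝ := max 0 (min 1 t)

theorem cl_mem (t : ℝ) : cl t ∈ Icc (0 : ℝ) 1 :=
  ⟨le_max_left _ _, max_le zero_le_one (min_le_left _ _)⟩

theorem cl_cont : Continuous cl := continuous_const.max (continuous_const.min continuous_id)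

theorem cl_zero : cl 0 = 0 := by
  unfold cl
  norm_num

theorem cl_one : cl 1 = 1 := by
  unfold cl
  norm_num

theorem ucont_of {w : ℝ → PForm (ES d) (ES q) X} (h : UnifContPath w) :
    Pool.Agent.K7.H28.SB.UCont (d := d) (q := q) (X := X) fun t => w (cl t) := by
  intro U φ hU hφ t p hp ε hε
  have h1 := h U φ ⟨hU, hφ⟩ (cl t) (cl_mem t) p hp ε hε
  have h2 : Tendsto (fun z : ℝ × ES d => (cl z.1, z.2)) (𝓝 (t, p))
      (𝓝[Icc (0 : ℝ) 1 ×ˢ U] (cl t, p)) := by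
    refine tendsto_nhdsWithin_iff.2 ⟨?_, ?_⟩
    · have h3 : Continuous fun z : ℝ × ES d => (cl z.1, z.2) :=
        (cl_cont.comp continuous_fst).prodMk continuous_snd
      exact h3.tendsto (t, p)
    · have h3 : ∀ᶠ z : ℝ × ES d in 𝓝 (t, p), z.2 ∈ U :=
        continuousAt_snd.eventually_mem (hU.mem_nhds hp)
      filter_upwards [h3] with z hz
      exact ⟨cl_mem _, hz⟩
  exact h2.eventually h1

theorem sum_cont {τ : ℝ → Form (ES d) X 2} (hτ : SmoothPath τ)
    {Jm : Matrix (Fin q) (Fin q) ℝ} (hJ : Jm.transpose = -Jm) :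
    UnifContPath fun t => Pool.Agent.K7.H28.ST.sumF (d := d) (q := q) (X := X) (τ t) Jm := by
  intro U φ hφ t _ p hp ε hε
  exact (Pool.Agent.K7.H28.SB.sum_cont (d := d) (q := q) (X := X)
    (Pool.Agent.K7.H28.SQP.spath_iff.1 hτ) hJ hφ.1 hφ.2 t hp hε).filter_mono nhdsWithin_le_nhds

theorem boundedPaths [IsManifold 𝓘(ℝ, ES d) ∞ X] [CompactSpace X] [ConnectedSpace X]
    (hX : ∀ β : Form (ES d) X 1, IsSmooth β → IsClosedForm β → ∃ x, β x = 0)
    (J : Matrix (Fin q) (Fin q) ℝ) (hJ : J.transpose = -J) (hJd : J.det ≠ 0)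
    (τ₀ τ₁ : Form (ES d) X 2) :
    (∃ τ : ℝ → Form (ES d) X 2, SmoothPath τ ∧ (∀ t ∈ Icc (0 : ℝ) 1, IsSymplectic (τ t)) ∧
      τ 0 = τ₀ ∧ τ 1 = τ₁) ↔
    ∃ w : ℝ → PForm (ES d) (ES q) X, UnifContPath w ∧
      (∀ t ∈ Icc (0 : ℝ) 1, IsBddClosed (w t) ∧ UnifNondeg (w t)) ∧
      IsSum τ₀ J (w 0) ∧ IsSum τ₁ J (w 1) := by
  constructor
  · rintro ⟨τ, hs, hτ, h0, h1⟩
    refine ⟨fun t => Pool.Agent.K7.H28.ST.sumF (d := d) (q := q) (X := X) (τ t) J,
      sum_cont hs hJ, fun t ht => ?_, ?_, ?_⟩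
    · obtain ⟨g1, g2, g3⟩ := (symp_iff (τ t)).1 (hτ t ht)
      exact (hyp_iff _).2 (Pool.Agent.K7.H28.ST.sumF_hyp g1 g2 g3 hJ hJd)
    · intro x s v v'
      rw [← h0]
      exact Pool.Agent.K7.H28.ST.sumF_apply (d := d) (q := q) (X := X) (τ 0) hJ x s v v'
    · intro x s v v'
      rw [← h1]
      exact Pool.Agent.K7.H28.ST.sumF_apply (d := d) (q := q) (X := X) (τ 1) hJ x s v v'
  · rintro ⟨w, hc, hw, h0, h1⟩
    obtain ⟨τ, g1, g2, g3, g4, g5⟩ := Pool.Agent.K7.H28.SB.avg_path (d := d) (q := q) (X := X)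
      (om := fun t => w (cl t))
      (fun β b1 b2 => hX β ((smooth_iff β).2 b1) ((closed_iff β).2 b2))
      (fun t => (hyp_iff _).1 (hw (cl t) (cl_mem t))) (ucont_of hc) (Jm := J) (τ₀ := τ₀)
      (τ₁ := τ₁) (by
        intro x t z z'
        change w (cl 0) x t ![z, z'] = _
        rw [cl_zero]
        exact h0 x t z z') (by
        intro x t z z'
        change w (cl 1) x t ![z, z'] = _
        rw [cl_one]
        exact h1 x t z z')
    refine ⟨τ, Pool.Agent.K7.H28.SQP.spath_iff.2 g1, fun t ht => ?_, g4, g5⟩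
    exact (symp_iff _).2 ⟨g1.slice t, g2 t, g3 t ht⟩

end

end Pool.Agent.K7.H28.SBP
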