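import Pool.Agent.K7.H28.ST.PubB
import Pool.Agent.K7.H28.SP.PubP

/-!
Paths of bounded two-forms on the product of a manifold and a vector space: the definitions used in
the statement.
-/

set_option autoImplicit false

open Set Filter Topology
open scoped Manifold ContDiff

noncomputable section

namespace Pool.Agent.K7.H28.SBP

open Pool.Agent.Y501.SYP
open Pool.Agent.K7.H28.STP

section

variable {V : Type} [NormedAddCommGroup V] [NormedSpace ℝ V]
  {W : Type} [NormedAddCommGroup W] [NormedSpace ℝ W]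
  {X : Type} [TopologicalSpace X] [ChartedSpace V X]

/-- The path `w t`, `0 ≤ t ≤ 1`, of two-forms on `X × W` is continuous in time and in the charts of
`X`, uniformly along `W`. -/
def UnifContPath (w : ℝ → PForm V W X) : Prop :=
  ∀ (U : Set V) (φ : V → X), SmoothParam U φ → ∀ t ∈ Icc (0 : ℝ) 1, ∀ p ∈ U, ∀ ε : ℝ, 0 < ε →
    ∀ᶠ z : ℝ × V in 𝓝[Icc (0 : ℝ) 1 ×ˢ U] (t, p), ∀ s : W,
      ‖ppb φ (w z.1) (z.2, s) - ppb φ (w t) (p, s)‖ ≤ ε

end

section

variable {d q : ℕ} {X : Type} [TopologicalSpace X] [ChartedSpace (ES d) X]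

/-- the coordinates of the points of Euclidean space -/
def crd (s : ES q) (i : Fin q) : ℝ := (show EuclideanSpace ℝ (Fin q) from s) i

/-- `w` is the sum of the two-form `τ` on `X` and of the constant two-form with the coefficient
matrix `J` on the Euclidean space of dimension `q`. -/
def IsSum (τ : Form (ES d) X 2) (J : Matrix (Fin q) (Fin q) ℝ) (w : PForm (ES d) (ES q) X) :
    Prop :=
  ∀ (x : X) (s : ES q) (v v' : TangentSpace 𝓘(ℝ, ES d) x × ES q),
    w x s ![v, v'] = τ x ![v.1, v'.1] + ∑ i, ∑ j, J i j * (crd v.2 i * crd v'.2 j)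

end

end Pool.Agent.K7.H28.SBP
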